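import Mathlib

namespace Pool.Agent.Results.MP_61f5b2_nt.Wieferich

/-- a is a positive integer all of whose prime factors are at most L. -/
def Smooth (L a : ℕ) : Prop := 1 ≤ a ∧ ∀ q, q.Prime → q ∣ a → q ≤ L

/-- The set N_L of the problem. The equation pc = a - b is written p c + b = a. -/
def N (L : ℕ) : Set ℕ :=
  {p | p.Prime ∧ ∃ c, 1 ≤ c ∧ ¬ p ∣ c ∧ ∃ a b, 1 ≤ a ∧ 1 ≤ b ∧ Smooth L (a * b) ∧
    (p * c = a + b ∨ p * c + b = a)}

/-- The primes p with l^(p-1) not congruent to 1 modulo p^2. -/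
def NonW (l : ℕ) : Set ℕ := {p | p.Prime ∧ ¬ l ^ (p - 1) ≡ 1 [MOD p ^ 2]}

theorem smooth_left {L a b : ℕ} (ha : 1 ≤ a) (h : Smooth L (a * b)) : Smooth L a :=
  ⟨ha, fun q hq hd => h.2 q hq (hd.mul_right b)⟩

theorem smooth_right {L a b : ℕ} (hb : 1 ≤ b) (h : Smooth L (a * b)) : Smooth L b :=
  ⟨hb, fun q hq hd => h.2 q hq (hd.mul_left a)⟩

theorem smooth_pow {p L : ℕ} (h : ∀ l, l.Prime → l ≤ L → l ^ (p - 1) ≡ 1 [MOD p ^ 2]) (a : ℕ) :
    Smooth L a → a ^ (p - 1) ≡ 1 [MOD p ^ 2] := by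
  induction a using Nat.recOnMul with
  | zero => intro h; exact absurd h.1 (by norm_num)
  | one => intro _; rw [one_pow]
  | prime q hq => intro hs; exact h q hq (hs.2 q hq dvd_rfl)
  | mul a b iha ihb =>
    intro hs
    have h1 : 1 ≤ a * b := hs.1
    have ha : 1 ≤ a := by
      rcases Nat.eq_zero_or_pos a with h0 | h0
      · subst h0; simp at h1
      · exact h0
    have hb : 1 ≤ b := by
      rcases Nat.eq_zero_or_pos b with h0 | h0
      · subst h0; simp at h1
      · exact h0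
    rw [mul_pow]
    simpa using (iha (smooth_left ha hs)).mul (ihb (smooth_right hb hs))

theorem key {p : ℕ} (hp : p.Prime) (hodd : Odd p) {x y : ℤ} (h : (p : ℤ) ∣ x - y)
    (hx : ¬ (p : ℤ) ∣ x) (h2 : (p : ℤ) ^ 2 ∣ x ^ (p - 1) - y ^ (p - 1)) :
    (p : ℤ) ^ 2 ∣ x - y := by
  have h0 : emultiplicity p (p - 1) = 0 := by
    rw [emultiplicity_eq_zero]
    intro hd
    have := Nat.le_of_dvd (by have := hp.two_le; omega) hd
    have := hp.two_le
    omega
  rw [pow_dvd_iff_le_emultiplicity] at h2 ⊢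
  rw [Int.emultiplicity_pow_sub_pow hp hodd h hx, h0, add_zero] at h2
  exact h2

theorem not_dvd_smooth {p L a : ℕ} (hp : p.Prime) (hL : L < p) (ha : Smooth L a) : ¬ p ∣ a := by
  intro h
  have := ha.2 p hp h
  omega

/-- a congruence modulo p between smooth numbers, up to sign, lifts to one modulo p^2. -/
theorem lift {p L : ℕ} (hp : p.Prime) (hodd : Odd p) (hL : L < p)
    (h : ∀ l, l.Prime → l ≤ L → l ^ (p - 1) ≡ 1 [MOD p ^ 2]) {a b : ℕ}
    (ha : Smooth L a) (hb : Smooth L b) (e : ℤ) (he : e = 1 ∨ e = -1)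
    (hd : (p : ℤ) ∣ (a : ℤ) - e * b) : (p : ℤ) ^ 2 ∣ (a : ℤ) - e * b := by
  apply key hp hodd hd
  · intro h1
    exact not_dvd_smooth hp hL ha (by exact_mod_cast h1)
  · have heven : Even (p - 1) := by
      obtain ⟨k, hk⟩ := hodd
      exact ⟨k, by omega⟩
    have h1 : (e * (b : ℤ)) ^ (p - 1) = (b : ℤ) ^ (p - 1) := by
      rcases he with rfl | rfl
      · rw [one_mul]
      · rw [neg_one_mul, heven.neg_pow]
    rw [h1]
    have h3 := (smooth_pow h b hb).trans (smooth_pow h a ha).symm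
    have h4 := (Nat.modEq_iff_dvd).1 h3
    push_cast at h4
    exact h4

theorem mem_iff {p L : ℕ} (hL2 : 2 ≤ L) (hp : p.Prime) (hL : L < p) :
    p ∈ N L ↔ ∃ l, l.Prime ∧ l ≤ L ∧ ¬ l ^ (p - 1) ≡ 1 [MOD p ^ 2] := by
  have hodd : Odd p := hp.odd_of_ne_two (by omega)
  constructor
  · rintro ⟨_, c, hc1, hpc, a, b, ha, hb, hs, hab⟩
    by_contra hcon
    push Not at hcon
    have hsa := smooth_left ha hs
    have hsb := smooth_right hb hs
    have hfin : (p : ℤ) ^ 2 ∣ (p : ℤ) * c := by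
      rcases hab with hab | hab
      · have e1 : (a : ℤ) - (-1) * b = (p : ℤ) * c := by
          have : ((p * c : ℕ) : ℤ) = ((a + b : ℕ) : ℤ) := by rw [hab]
          push_cast at this
          linarith
        have := lift hp hodd hL hcon hsa hsb (-1) (Or.inr rfl) (by rw [e1]; exact dvd_mul_right _ _)
        rwa [e1] at this
      · have e1 : (a : ℤ) - 1 * b = (p : ℤ) * c := by
          have : ((p * c + b : ℕ) : ℤ) = ((a : ℕ) : ℤ) := by rw [hab]
          push_cast at this
          linarith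
        have := lift hp hodd hL hcon hsa hsb 1 (Or.inl rfl) (by rw [e1]; exact dvd_mul_right _ _)
        rwa [e1] at this
    apply hpc
    have h5 : (p : ℤ) * p ∣ (p : ℤ) * c := by rw [← sq]; exact hfin
    have hp0 : (p : ℤ) ≠ 0 := by exact_mod_cast hp.ne_zero
    exact_mod_cast (mul_dvd_mul_iff_left hp0).1 h5
  · rintro ⟨l, hl, hlL, hW⟩
    have hcop : Nat.Coprime l p := by
      rw [Nat.coprime_primes hl hp]
      omega
    have hfer : l ^ (p - 1) ≡ 1 [MOD p] := by
      have := Nat.ModEq.pow_totient hcop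
      rwa [Nat.totient_prime hp] at this
    have hgt : 1 < l ^ (p - 1) := Nat.one_lt_pow (by have := hp.two_le; omega) hl.one_lt
    have hd : p ∣ l ^ (p - 1) - 1 := (Nat.modEq_iff_dvd' hgt.le).1 hfer.symm
    obtain ⟨c, hc⟩ := hd
    have hc1 : 1 ≤ c := by
      rcases Nat.eq_zero_or_pos c with h0 | h0
      · subst h0; omega
      · exact h0
    refine ⟨hp, c, hc1, ?_, l ^ (p - 1), 1, hgt.le, le_rfl, ?_, Or.inr (by omega)⟩
    · rintro ⟨k, rfl⟩
      apply hW
      apply Nat.ModEq.symm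
      rw [Nat.modEq_iff_dvd' hgt.le, hc]
      exact ⟨k, by ring⟩
    · refine ⟨by omega, fun q hq hd => ?_⟩
      rw [mul_one] at hd
      have := (Nat.prime_dvd_prime_iff_eq hq hl).1 (hq.dvd_of_dvd_pow hd)
      omega

theorem infinite_iff {L : ℕ} (hL2 : 2 ≤ L) :
    (N L).Infinite ↔ ∃ l, l.Prime ∧ l ≤ L ∧ (NonW l).Infinite := by
  constructor
  · intro hinf
    by_contra hcon
    push Not at hcon
    apply hinf
    have hsub : N L ⊆ Set.Iic L ∪ ⋃ l ∈ {l : ℕ | l.Prime ∧ l ≤ L}, NonW l := by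
      intro p hp
      rcases le_or_gt p L with h | h
      · exact Or.inl h
      · right
        obtain ⟨l, hl, hlL, hW⟩ := (mem_iff hL2 hp.1 h).1 hp
        simp only [Set.mem_iUnion]
        exact ⟨l, ⟨hl, hlL⟩, hp.1, hW⟩
    refine Set.Finite.subset ((Set.finite_Iic L).union (Set.Finite.biUnion ?_ ?_)) hsub
    · exact (Set.finite_Iic L).subset fun l hl => hl.2
    · intro l hl
      exact hcon l hl.1 hl.2
  · rintro ⟨l, hl, hlL, hinf⟩
    have h1 : (NonW l \ Set.Iic L).Infinite := hinf.sdiff (Set.finite_Iic L)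
    apply h1.mono
    rintro p ⟨⟨hp, hW⟩, hpL⟩
    have hpL' : L < p := by simpa using hpL
    exact (mem_iff hL2 hp hpL').2 ⟨l, hl, hlL, hW⟩

/-- If p > L is not in N_L then there are fewer than p/2 smooth numbers below p^2/2. -/
theorem count {p L : ℕ} (hL2 : 2 ≤ L) (hp : p.Prime) (hL : L < p) (h : p ∉ N L)
    (A : Finset ℕ) (hA : ∀ a ∈ A, Smooth L a ∧ 2 * a < p ^ 2) : 2 * A.card < p := by
  have : Fact p.Prime := ⟨hp⟩
  have hodd : Odd p := hp.odd_of_ne_two (by omega)
  rw [mem_iff hL2 hp hL] at h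
  push Not at h
  have hcard : (A ×ˢ ({1, -1} : Finset ℤ)).card ≤ ((Finset.univ : Finset (ZMod p)).erase 0).card := by
    apply Finset.card_le_card_of_injOn (fun x => ((x.2 * (x.1 : ℤ) : ℤ) : ZMod p))
    · rintro ⟨a, e⟩ hx
      simp only [Finset.coe_product, Set.mem_prod, Finset.mem_coe, Finset.mem_insert,
        Finset.mem_singleton] at hx
      obtain ⟨ha, he⟩ := hx
      simp only [Finset.coe_erase, Finset.coe_univ, Set.mem_sdiff, Set.mem_univ,
        Set.mem_singleton_iff, true_and]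
      intro h0
      rw [ZMod.intCast_zmod_eq_zero_iff_dvd] at h0
      have h1 : (p : ℤ) ∣ (a : ℤ) := by
        rcases he with rfl | rfl
        · simpa using h0
        · simpa using h0
      exact not_dvd_smooth hp hL (hA a ha).1 (by exact_mod_cast h1)
    · rintro ⟨a, e⟩ hx ⟨b, e'⟩ hy hxy
      simp only [Finset.coe_product, Set.mem_prod, Finset.mem_coe, Finset.mem_insert,
        Finset.mem_singleton] at hx hy
      obtain ⟨ha, he⟩ := hx
      obtain ⟨hb, he'⟩ := hy
      have hxy' : ((e * (a : ℤ) : ℤ) : ZMod p) = ((e' * (b : ℤ) : ℤ) : ZMod p) := hxy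
      rw [ZMod.intCast_eq_intCast_iff_dvd_sub] at hxy'
      have h1 : (p : ℤ) ∣ (a : ℤ) - (e * e') * b := by
        have e1 : (a : ℤ) - (e * e') * b = -(e * (e' * b - e * a)) := by
          rcases he with rfl | rfl <;> ring
        rw [e1]
        exact (hxy'.mul_left e).neg_right
      have h2 := lift hp hodd hL h (hA a ha).1 (hA b hb).1 (e * e')
        (by rcases he with rfl | rfl <;> rcases he' with rfl | rfl <;> simp) h1
      have ba : 2 * (a : ℤ) < (p : ℤ) ^ 2 := by exact_mod_cast (hA a ha).2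
      have bb : 2 * (b : ℤ) < (p : ℤ) ^ 2 := by exact_mod_cast (hA b hb).2
      have a1 : (1 : ℤ) ≤ a := by exact_mod_cast (hA a ha).1.1
      have b1 : (1 : ℤ) ≤ b := by exact_mod_cast (hA b hb).1.1
      have key2 : ∀ x : ℤ, (p : ℤ) ^ 2 ∣ x → |x| < (p : ℤ) ^ 2 → x = 0 := fun x hd hlt =>
        Int.eq_zero_of_abs_lt_dvd hd hlt
      have h3 := key2 _ h2
      rcases he with rfl | rfl <;> rcases he' with rfl | rfl
      · have h4 := h3 (by rw [abs_lt]; constructor <;> linarith)
        have : a = b := by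
          have : (a : ℤ) = b := by linarith
          exact_mod_cast this
        rw [this]
      · have h4 := h3 (by rw [abs_lt]; constructor <;> linarith)
        exfalso
        linarith
      · have h4 := h3 (by rw [abs_lt]; constructor <;> linarith)
        exfalso
        linarith
      · have h4 := h3 (by rw [abs_lt]; constructor <;> linarith)
        have : a = b := by
          have : (a : ℤ) = b := by linarith
          exact_mod_cast this
        rw [this]
  rw [Finset.card_product, Finset.card_erase_of_mem (Finset.mem_univ _), Finset.card_univ,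
    ZMod.card] at hcard
  have h2 : ({1, -1} : Finset ℤ).card = 2 := by decide
  rw [h2] at hcard
  have := hp.two_le
  omega

/-- The main result. -/
theorem result :
    ∀ L : ℕ, L.Prime →
      (∀ p, p.Prime → L < p →
        (p ∈ N L ↔ ∃ l, l.Prime ∧ l ≤ L ∧ ¬ l ^ (p - 1) ≡ 1 [MOD p ^ 2])) ∧
      ((N L).Infinite ↔ ∃ l, l.Prime ∧ l ≤ L ∧ (NonW l).Infinite) ∧
      (∀ p, p.Prime → L < p → p ∉ N L → ∀ A : Finset ℕ,
        (∀ a ∈ A, Smooth L a ∧ 2 * a < p ^ 2) → 2 * A.card < p) :=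
  fun _ hL => ⟨fun _ hp hlt => mem_iff hL.two_le hp hlt, infinite_iff hL.two_le,
    fun _ hp hlt h A hA => count hL.two_le hp hlt h A hA⟩

end Pool.Agent.Results.MP_61f5b2_nt.Wieferich
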